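import Pool.Agent.W426.LE.Stm

set_option autoImplicit false
set_option linter.all false

/-! Project LE (helper426): half systems and the edges of the joined circulants. -/

namespace Pool.Agent.W337.LE

open Pool.Agent.W426.LE Finset
open scoped Classical

theorem ne_neg {n : ℕ} (hn : Odd n) {x : ZMod n} (hx : x ≠ 0) : x ≠ -x := by
  intro h
  have h2 : (2 : ZMod n) * x = 0 := by
    rw [two_mul]
    nth_rw 2 [h]
    ring
  have hu : IsUnit (2 : ZMod n) := by
    have h3 := (ZMod.isUnit_iff_coprime 2 n).2 (Nat.coprime_two_left.2 hn)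
    simpa using h3
  exact hx ((hu.mul_right_eq_zero).1 h2)

theorem half : S_HALF := by
  intro n m hn S hsym h0 hcard
  have hn0 : NeZero n := ⟨by rintro rfl; simp at hn⟩
  have hval : ∀ x ∈ S, x.val ≠ (-x).val := by
    intro x hx h
    exact ne_neg hn (fun h1 => h0 (h1 ▸ hx)) (ZMod.val_injective n h)
  set P := S.filter (fun x => x.val < (-x).val) with hP
  have hPmem : ∀ x, x ∈ P ↔ x ∈ S ∧ x.val < (-x).val := by
    intro x; rw [hP, mem_filter]
  have hdisj : Disjoint P (P.image (fun x => -x)) := by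
    rw [Finset.disjoint_left]
    intro x hx hx'
    rw [mem_image] at hx'
    obtain ⟨y, hy, rfl⟩ := hx'
    rw [hPmem] at hx hy
    rw [neg_neg] at hx
    omega
  have hunion : P ∪ P.image (fun x => -x) = S := by
    ext x
    rw [mem_union, mem_image]
    constructor
    · rintro (h | ⟨y, hy, rfl⟩)
      · exact ((hPmem x).1 h).1
      · exact hsym _ ((hPmem y).1 hy).1
    · intro hx
      rcases lt_or_gt_of_ne (hval x hx) with h | h
      · left; exact (hPmem x).2 ⟨hx, h⟩
      · right
        refine ⟨-x, (hPmem _).2 ⟨hsym x hx, ?_⟩, neg_neg x⟩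
        rw [neg_neg]; exact h
  have hPm : P.card = m := by
    have h1 : (P ∪ P.image (fun x => -x)).card = P.card + P.card := by
      rw [card_union_of_disjoint hdisj, card_image_of_injective _ neg_injective]
    rw [hunion, hcard] at h1
    omega
  let e : Fin m ≃ P := (P.equivFinOfCardEq hPm).symm
  have heS : ∀ i, (e i : ZMod n) ∈ S ∧ (e i : ZMod n).val < (-(e i : ZMod n)).val :=
    fun i => (hPmem _).1 (e i).2
  refine ⟨fun i => (e i : ZMod n), ?_, ?_, ?_⟩
  · rintro ⟨i, b⟩ -
    cases b
    · simpa using hsym _ (heS i).1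
    · simpa using (heS i).1
  · rintro ⟨i, b⟩ - ⟨i', b'⟩ - h
    have h1 := (heS i).2
    have h2 := (heS i').2
    cases b <;> cases b' <;> simp only [Bool.false_eq_true, if_false, if_true] at h
    · have h3 := neg_injective h
      have h4 : i = i' := e.injective (Subtype.ext h3)
      rw [h4]
    · rw [← h, neg_neg] at h2
      omega
    · rw [h, neg_neg] at h1
      omega
    · have h4 : i = i' := e.injective (Subtype.ext h)
      rw [h4]
  · intro x hx
    have hx' : x ∈ P ∪ P.image (fun x => -x) := by rw [hunion]; exact hx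
    rw [mem_union, mem_image] at hx'
    rcases hx' with h | ⟨y, hy, rfl⟩
    · exact ⟨(e.symm ⟨x, h⟩, true), Set.mem_univ _, by simp⟩
    · exact ⟨(e.symm ⟨y, hy⟩, false), Set.mem_univ _, by simp⟩

theorem inc_tt {n : ℕ} {I T : Type} (s : Bool → I → ZMod n) (v : T → ZMod n) (y : ZMod n) (b : Bool)
    (i : I) : inc s v (y, b) (.inl (i, true)) = .inl (b, i, y) := by cases b <;> rfl

theorem inc_ff {n : ℕ} {I T : Type} (s : Bool → I → ZMod n) (v : T → ZMod n) (y : ZMod n) (b : Bool)
    (i : I) : inc s v (y, b) (.inl (i, false)) = .inl (b, i, y - s b i) := by cases b <;> rfl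

/-- the endpoints of an edge -/
def psi {n m : ℕ} (T : Finset (ZMod n)) (σ : Bool → Fin m → ZMod n) :
    EE (Fin m) T n → Sym2 (ZMod n × Bool)
  | .inl (b, i, y) => s((y, b), (y + σ b i, b))
  | .inr (t, y) => s((y, false), (y + (t : ZMod n), true))

theorem main : S_EDGE := by
  intro n m _ hn S R T σ hS0 hR0 hS hR
  let SS : Bool → Finset (ZMod n) := fun b => if b then R else S
  have hH : ∀ b, Half (SS b : Set (ZMod n)) (σ b) := by
    intro b; cases b
    · exact hS
    · exact hR
  have h0 : ∀ b, (0 : ZMod n) ∉ SS b := by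
    intro b; cases b
    · exact hS0
    · exact hR0
  have hmem : ∀ b i, σ b i ∈ SS b := fun b i => by
    have := (hH b).mapsTo (Set.mem_univ (i, true))
    simpa using this
  have hmem' : ∀ b i, -σ b i ∈ SS b := fun b i => by
    have := (hH b).mapsTo (Set.mem_univ (i, false))
    simpa using this
  have hne0 : ∀ b i, σ b i ≠ 0 := fun b i h => h0 b (h ▸ hmem b i)
  have hinj : ∀ b i i', σ b i = σ b i' → i = i' := by
    intro b i i' h
    have := (hH b).injOn (Set.mem_univ (i, true)) (Set.mem_univ (i', true)) (by simpa using h)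
    exact (Prod.mk.inj this).1
  have hneg : ∀ b i i', σ b i ≠ -σ b i' := by
    intro b i i' h
    have := (hH b).injOn (Set.mem_univ (i, true)) (Set.mem_univ (i', false)) (by simpa using h)
    exact absurd (Prod.mk.inj this).2 (by simp)
  have hsurj : ∀ b x, x ∈ SS b → ∃ i, x = σ b i ∨ x = -σ b i := by
    intro b x hx
    obtain ⟨⟨i, c⟩, -, h⟩ := (hH b).surjOn hx
    cases c
    · exact ⟨i, Or.inr (by simpa using h.symm)⟩
    · exact ⟨i, Or.inl (by simpa using h.symm)⟩
  -- edges
  have hadjb : ∀ b i y, (BC n S R T).Adj (y, b) (y + σ b i, b) := by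
    intro b i y
    unfold BC
    rw [SimpleGraph.fromRel_adj]
    refine ⟨?_, Or.inl ?_⟩
    · intro h
      have := (Prod.mk.inj h).1
      exact hne0 b i (by simpa using this)
    · have h1 := hmem b i
      cases b
      · left; exact ⟨rfl, rfl, by simpa [SS] using h1⟩
      · right; left; exact ⟨rfl, rfl, by simpa [SS] using h1⟩
  have hadjt : ∀ (t : T) y, (BC n S R T).Adj (y, false) (y + (t : ZMod n), true) := by
    intro t y
    unfold BC
    rw [SimpleGraph.fromRel_adj]
    refine ⟨?_, Or.inl ?_⟩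
    · intro h
      exact absurd (Prod.mk.inj h).2 (by simp)
    · right; right; exact ⟨rfl, rfl, by simpa using t.2⟩
  have hedge : ∀ e : EE (Fin m) T n, psi T σ e ∈ (BC n S R T).edgeSet := by
    rintro (⟨b, i, y⟩ | ⟨t, y⟩)
    · exact hadjb b i y
    · exact hadjt t y
  have hpinj : Function.Injective (psi T σ) := by
    rintro (⟨b, i, y⟩ | ⟨t, y⟩) (⟨b', i', y'⟩ | ⟨t', y'⟩) h
    · simp only [psi, Sym2.eq_iff, Prod.mk.injEq] at h
      rcases h with ⟨⟨h1, h2⟩, h3, h4⟩ | ⟨⟨h1, h2⟩, h3, h4⟩
      · subst h1 h2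
        have h5 := hinj b i i' (add_left_cancel h3)
        rw [h5]
      · subst h2
        exfalso
        refine hneg b i i' ?_
        have h6 : y' + σ b i' + σ b i = y' := by rw [← h1]; exact h3
        have h7 : σ b i' + σ b i = 0 := by
          have := h6
          rw [add_assoc] at this
          simpa using this
        exact eq_neg_of_add_eq_zero_right h7
    · simp only [psi, Sym2.eq_iff, Prod.mk.injEq] at h
      rcases h with ⟨⟨h1, h2⟩, h3, h4⟩ | ⟨⟨h1, h2⟩, h3, h4⟩
      · rw [h2] at h4; exact absurd h4 (by simp)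
      · rw [h2] at h4; exact absurd h4 (by simp)
    · simp only [psi, Sym2.eq_iff, Prod.mk.injEq] at h
      rcases h with ⟨⟨h1, h2⟩, h3, h4⟩ | ⟨⟨h1, h2⟩, h3, h4⟩
      · rw [← h2] at h4; exact absurd h4 (by simp)
      · rw [← h2] at h4; exact absurd h4 (by simp)
    · simp only [psi, Sym2.eq_iff, Prod.mk.injEq] at h
      rcases h with ⟨⟨h1, h2⟩, h3, h4⟩ | ⟨⟨h1, h2⟩, h3, h4⟩
      · subst h1
        have h5 : t = t' := Subtype.ext (add_left_cancel h3)
        rw [h5]
      · exact absurd h2 (by simp)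
  have key : ∀ u w : ZMod n × Bool,
      ((u.2 = false ∧ w.2 = false ∧ w.1 - u.1 ∈ S) ∨ (u.2 = true ∧ w.2 = true ∧ w.1 - u.1 ∈ R) ∨
        (u.2 = false ∧ w.2 = true ∧ w.1 - u.1 ∈ T)) → ∃ e, psi T σ e = s(u, w) := by
    have aux : ∀ (b : Bool) (y z : ZMod n), z - y ∈ SS b → ∃ e, psi T σ e = s((y, b), (z, b)) := by
      intro b y z h
      obtain ⟨i, hi | hi⟩ := hsurj b _ h
      · refine ⟨.inl (b, i, y), ?_⟩
        simp only [psi]
        rw [← hi, add_sub_cancel]
      · refine ⟨.inl (b, i, z), ?_⟩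
        simp only [psi]
        have : z + σ b i = y := by
          have h1 : σ b i = y - z := by rw [← neg_sub z y, hi, neg_neg]
          rw [h1, add_sub_cancel]
        rw [this, Sym2.eq_swap]
    rintro ⟨y, b⟩ ⟨z, c⟩ (⟨h1, h2, h3⟩ | ⟨h1, h2, h3⟩ | ⟨h1, h2, h3⟩)
    · simp only at h1 h2 h3
      subst h1 h2
      exact aux false y z h3
    · simp only at h1 h2 h3
      subst h1 h2
      exact aux true y z h3
    · simp only at h1 h2 h3
      subst h1 h2
      refine ⟨.inr (⟨z - y, h3⟩, y), ?_⟩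
      simp only [psi]
      rw [add_sub_cancel]
  have hpsurj : ∀ e ∈ (BC n S R T).edgeSet, ∃ x, psi T σ x = e := by
    intro e
    induction e with
    | _ u w =>
      intro he
      rw [SimpleGraph.mem_edgeSet] at he
      unfold BC at he
      rw [SimpleGraph.fromRel_adj] at he
      rcases he.2 with h | h
      · exact key u w h
      · obtain ⟨x, hx⟩ := key w u h
        exact ⟨x, by rw [hx, Sym2.eq_swap]⟩
  let ψ : EE (Fin m) T n ≃ (BC n S R T).edgeSet :=
    Equiv.ofBijective (fun e => ⟨psi T σ e, hedge e⟩)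
      ⟨fun a b h => hpinj (by simpa using h), fun e => by
        obtain ⟨x, hx⟩ := hpsurj e.1 e.2
        exact ⟨x, Subtype.ext hx⟩⟩
  have hψ : ∀ e, ((ψ e : (BC n S R T).edgeSet) : Sym2 (ZMod n × Bool)) = psi T σ e := fun e => rfl
  refine ⟨ψ, ?_, ?_, ?_⟩
  · rintro ⟨y, b⟩ (⟨i, c⟩ | τ)
    · rw [hψ]
      cases c
      · rw [inc_ff]
        simp only [psi, Sym2.mem_iff]
        right
        rw [sub_add_cancel]
      · rw [inc_tt]
        simp only [psi, Sym2.mem_iff]
        left; trivial
    · rw [hψ]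
      cases b
      · simp only [inc, psi, Sym2.mem_iff]
        left; trivial
      · simp only [inc, psi, Sym2.mem_iff]
        right
        rw [sub_add_cancel]
  · rintro ⟨y, b⟩ (⟨c, i, z⟩ | ⟨τ, z⟩) h
    · rw [hψ] at h
      simp only [psi, Sym2.mem_iff, Prod.mk.injEq] at h
      rcases h with ⟨h1, h2⟩ | ⟨h1, h2⟩
      · subst h1 h2
        exact ⟨.inl (i, true), inc_tt _ _ _ _ _⟩
      · subst h1 h2
        refine ⟨.inl (i, false), ?_⟩
        rw [inc_ff, add_sub_cancel_right]
    · rw [hψ] at h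
      simp only [psi, Sym2.mem_iff, Prod.mk.injEq] at h
      rcases h with ⟨h1, h2⟩ | ⟨h1, h2⟩
      · subst h1 h2
        exact ⟨.inr τ, rfl⟩
      · subst h1 h2
        refine ⟨.inr τ, ?_⟩
        simp only [inc, add_sub_cancel_right]
  · rintro ⟨y, b⟩ (⟨i, c⟩ | τ) (⟨i', c'⟩ | τ') h
    · cases c <;> cases c' <;> simp only [inc_tt, inc_ff, Sum.inl.injEq, Prod.mk.injEq] at h
      · rw [h.2.1]
      · exact absurd (sub_eq_self.1 h.2.2) (hne0 b i)
      · exact absurd (sub_eq_self.1 h.2.2.symm) (hne0 b i')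
      · rw [h.2.1]
    · exfalso
      cases b <;> cases c <;> simp [inc] at h
    · exfalso
      cases b <;> cases c' <;> simp [inc] at h
    · cases b <;> simp only [inc, Sum.inr.injEq, Prod.mk.injEq] at h <;> rw [h.1]

end Pool.Agent.W337.LE
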